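import Pool.Agent.H80.LD.Targets

/-! Row RPD of the board `ldp_modules` (problem MP_47c37b_mp): differences of moments from
reflection positivity. -/

set_option autoImplicit false

open MeasureTheory SchwartzMap Filter Topology
open scoped ENNReal ContDiff InnerProductSpace

namespace Pool.Agent.H7.LD

open Pool.Agent.H80.LD
open Pool.Agent.H43.DPC (V S SD moment trans rot IsMAO Nn)
open Pool.Agent.H43.DPCS (TransInv RotInv transInv_of rotInv_of)

noncomputable section

variable {d : ℕ}

theorem trans_app (h : V d) (f : S d) (x : V d) : trans h f x = f (x - h) := rfl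

theorem rot_app (R : V d ≃ₗᵢ[ℝ] V d) (f : S d) (x : V d) : rot R f x = f (R x) := rfl

theorem Re_self (e : V d) : Re e e = -e :=
  Submodule.reflection_orthogonalComplement_singleton_eq_neg e

theorem Re_Re (e x : V d) : Re e (Re e x) = x :=
  Submodule.reflection_reflection _ x

theorem inner_Re (e x : V d) : ⟪e, Re e x⟫_ℝ = -⟪e, x⟫_ℝ := by
  have h := (Re e).inner_map_map (Re e e) x
  rw [Re_Re] at h
  rw [h, Re_self, inner_neg_left]

theorem trans_trans (a b : V d) (f : S d) : trans a (trans b f) = trans (a + b) f := by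
  refine SchwartzMap.ext fun x => ?_
  rw [trans_app, trans_app, trans_app]
  congr 1
  abel

theorem trans_zero (f : S d) : trans 0 f = f := by
  refine SchwartzMap.ext fun x => ?_
  rw [trans_app, sub_zero]

theorem rot_rot (e : V d) (f : S d) : rot (Re e) (rot (Re e) f) = f := by
  refine SchwartzMap.ext fun x => ?_
  rw [rot_app, rot_app, Re_Re]

theorem trans_rot (e : V d) (s : ℝ) (f : S d) :
    trans ((-s) • e) (rot (Re e) f) = rot (Re e) (trans (s • e) f) := by
  refine SchwartzMap.ext fun x => ?_
  rw [trans_app, rot_app, rot_app, trans_app, map_sub, map_smul, Re_self]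
  congr 1
  simp

/-! ### lists -/

theorem ml_ofFn (μ : Measure (SD d)) {n : ℕ} (f : Fin n → S d) :
    ml μ (List.ofFn f) = moment μ f := by
  unfold ml moment
  refine integral_congr_ae (Eventually.of_forall fun T => ?_)
  simp only [List.map_ofFn, List.prod_ofFn, Function.comp_apply]

theorem exists_ofFn (l : List (S d)) : ∃ f : Fin l.length → S d, l = List.ofFn f :=
  ⟨l.get, (List.ofFn_get l).symm⟩

theorem ml_trans (μ : Measure (SD d)) (hT : TransInv μ) (v : V d) (l : List (S d)) :
    ml μ (l.map (trans v)) = ml μ l := by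
  obtain ⟨f, hf⟩ := exists_ofFn l
  rw [hf, List.map_ofFn, ml_ofFn, ml_ofFn]
  exact Pool.Agent.H43.DPC.INV.moment_trans d μ (transInv_of μ hT) _ v f

theorem ml_rot (μ : Measure (SD d)) (hR : RotInv μ) (R : V d ≃ₗᵢ[ℝ] V d) (l : List (S d)) :
    ml μ (l.map (rot R)) = ml μ l := by
  obtain ⟨f, hf⟩ := exists_ofFn l
  rw [hf, List.map_ofFn, ml_ofFn, ml_ofFn]
  exact Pool.Agent.H43.DPC.INV.moment_rot d μ (rotInv_of μ hR) _ R f

theorem ml_comm (μ : Measure (SD d)) (A L : List (S d)) : ml μ (A ++ L) = ml μ (L ++ A) := by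
  unfold ml
  refine integral_congr_ae (Eventually.of_forall fun T => ?_)
  simp only [List.map_append, List.prod_append]
  exact mul_comm _ _

theorem ml_bound (μ : Measure (SD d)) [IsProbabilityMeasure μ] (hM : IsMAO μ) (hT : TransInv μ)
    (A L : List (S d)) : ∃ K : ℝ, 0 ≤ K ∧ ∀ v : V d, |ml μ (A ++ L.map (trans v))| ≤ K := by
  refine ⟨((A ++ L).map (Nn μ (A ++ L).length)).prod + 1, ?_, fun v => ?_⟩
  · have : 0 ≤ ((A ++ L).map (Nn μ (A ++ L).length)).prod := by
      refine List.prod_nonneg fun a ha => ?_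
      obtain ⟨f, -, rfl⟩ := List.mem_map.1 ha
      exact ENNReal.toReal_nonneg
    linarith
  · by_cases hn : (A ++ L).length = 0
    · have h0 := List.length_eq_zero_iff.1 hn
      obtain ⟨hA, hL⟩ := List.append_eq_nil_iff.1 h0
      subst hA
      subst hL
      simp [ml]
    · have h1 : 1 ≤ (A ++ L).length := Nat.one_le_iff_ne_zero.2 hn
      obtain ⟨f, hf⟩ := exists_ofFn (A ++ L.map (trans v))
      have hlen : (A ++ L.map (trans v)).length = (A ++ L).length := by simp
      have h2 := (Pool.Agent.H43.DPC.HOL d μ hM).1 _ (hlen ▸ h1) f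
      rw [← ml_ofFn, ← hf] at h2
      have h3 : ∏ i, Nn μ (A ++ L.map (trans v)).length (f i) =
          ((A ++ L.map (trans v)).map (Nn μ (A ++ L.map (trans v)).length)).prod := by
        conv_rhs => rw [hf]
        rw [List.map_ofFn, List.prod_ofFn]
        simp only [Function.comp_apply, List.length_ofFn]
      rw [h3, hlen] at h2
      have h4 : (A ++ L.map (trans v)).map (Nn μ (A ++ L).length) =
          (A ++ L).map (Nn μ (A ++ L).length) := by
        rw [List.map_append, List.map_append, List.map_map]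
        congr 1
        refine List.map_congr_left fun g _ => ?_
        exact Pool.Agent.H43.DPC.INV.Nn_trans d μ (transInv_of μ hT) _ v g
      rw [h4] at h2
      linarith

/-! ### the form -/

/-- test functions supported on the right -/
abbrev Rt (e : V d) : Type := {f : S d // ∀ x, f x ≠ 0 → 0 < ⟪e, x⟫_ℝ}

/-- lists of test functions -/
def vl (e : V d) (l : List (Rt e)) : List (S d) := l.map Subtype.val

/-- the values of the form on the basis -/
def bf (μ : Measure (SD d)) (e : V d) (F G : List (Rt e)) : ℝ :=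
  ml μ ((vl e F).map (rot (Re e)) ++ vl e G)

/-- the form -/
def BF (μ : Measure (SD d)) (e : V d) : (List (Rt e) →₀ ℝ) →ₗ[ℝ] (List (Rt e) →₀ ℝ) →ₗ[ℝ] ℝ :=
  Finsupp.linearCombination ℝ (fun F => Finsupp.linearCombination ℝ (bf μ e F))

theorem BF_single (μ : Measure (SD d)) (e : V d) (F G : List (Rt e)) (a b : ℝ) :
    BF μ e (Finsupp.single F a) (Finsupp.single G b) = a * b * bf μ e F G := by
  simp only [BF, Finsupp.linearCombination_single, LinearMap.smul_apply, smul_eq_mul]
  ring

/-- translation to the right -/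
def tr (e : V d) (he : ‖e‖ = 1) (s : ℝ) (f : Rt e) : Rt e :=
  if hs : 0 ≤ s then ⟨trans (s • e) f.1, fun x hx => by
    have h := f.2 _ hx
    rw [inner_sub_right, inner_smul_right, real_inner_self_eq_norm_sq, he] at h
    linarith⟩ else f

theorem tr_val (e : V d) (he : ‖e‖ = 1) (s : ℝ) (hs : 0 ≤ s) (f : Rt e) :
    (tr e he s f).1 = trans (s • e) f.1 := by
  rw [tr, dif_pos hs]

/-- the semigroup -/
def ta (e : V d) (he : ‖e‖ = 1) (s : ℝ) : (List (Rt e) →₀ ℝ) →ₗ[ℝ] (List (Rt e) →₀ ℝ) :=
  Finsupp.lmapDomain ℝ ℝ (List.map (tr e he s))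

theorem ta_single (e : V d) (he : ‖e‖ = 1) (s : ℝ) (F : List (Rt e)) (a : ℝ) :
    ta e he s (Finsupp.single F a) = Finsupp.single (F.map (tr e he s)) a := by
  rw [ta, Finsupp.lmapDomain_apply, Finsupp.mapDomain_single]

theorem vl_tr (e : V d) (he : ‖e‖ = 1) (s : ℝ) (hs : 0 ≤ s) (F : List (Rt e)) :
    vl e (F.map (tr e he s)) = (vl e F).map (trans (s • e)) := by
  rw [vl, vl, List.map_map, List.map_map]
  exact List.map_congr_left fun f _ => tr_val e he s hs f

theorem bf_symm (μ : Measure (SD d)) (hR : RotInv μ) (e : V d) (F G : List (Rt e)) :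
    bf μ e F G = bf μ e G F := by
  unfold bf
  rw [← ml_rot μ hR (Re e), List.map_append, List.map_map, ml_comm]
  congr 2
  conv_rhs => rw [← List.map_id (vl e F)]
  exact List.map_congr_left fun f _ => rot_rot e f

theorem bf_tr (μ : Measure (SD d)) (hT : TransInv μ) (e : V d) (he : ‖e‖ = 1) (s : ℝ)
    (hs : 0 ≤ s) (F G : List (Rt e)) :
    bf μ e F (G.map (tr e he s)) = bf μ e (F.map (tr e he s)) G := by
  unfold bf
  rw [vl_tr e he s hs, vl_tr e he s hs, ← ml_trans μ hT ((-s) • e), List.map_append,
    List.map_map, List.map_map, List.map_map]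
  congr 2
  · exact List.map_congr_left fun f _ => trans_rot e s f
  · conv_rhs => rw [← List.map_id (vl e G)]
    refine List.map_congr_left fun f _ => ?_
    change trans ((-s) • e) (trans (s • e) f) = f
    rw [trans_trans, ← add_smul, neg_add_cancel, zero_smul, trans_zero]

theorem BF_symm (μ : Measure (SD d)) (hR : RotInv μ) (e : V d) (F G : List (Rt e) →₀ ℝ) :
    BF μ e F G = BF μ e G F := by
  have h : BF μ e = (BF μ e).flip := by
    refine Finsupp.lhom_ext fun F a => ?_
    refine Finsupp.lhom_ext fun G b => ?_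
    rw [LinearMap.flip_apply, BF_single, BF_single, bf_symm μ hR e F G]
    ring
  conv_lhs => rw [h]
  rfl

theorem BF_tr (μ : Measure (SD d)) (hT : TransInv μ) (e : V d) (he : ‖e‖ = 1) (s : ℝ)
    (hs : 0 ≤ s) (F G : List (Rt e) →₀ ℝ) :
    BF μ e F (ta e he s G) = BF μ e (ta e he s F) G := by
  have h : (BF μ e).compl₂ (ta e he s) = (BF μ e).comp (ta e he s) := by
    refine Finsupp.lhom_ext fun F a => ?_
    refine Finsupp.lhom_ext fun G b => ?_
    rw [LinearMap.compl₂_apply, LinearMap.comp_apply, ta_single, ta_single, BF_single, BF_single,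
      bf_tr μ hT e he s hs]
  have := congrArg (fun B => B F G) h
  exact this

theorem BF_nonneg (μ : Measure (SD d)) (e : V d) (hP : RPos μ e) (F : List (Rt e) →₀ ℝ) :
    0 ≤ BF μ e F F := by
  classical
  have h := hP F.support.card (fun j => F (F.support.equivFin.symm j))
    (fun j => vl e (F.support.equivFin.symm j)) (by
      intro j f hf x hx
      obtain ⟨g, -, rfl⟩ := List.mem_map.1 hf
      exact g.2 x hx)
  have h2 : BF μ e F F = ∑ a ∈ F.support, ∑ b ∈ F.support, F a * F b * bf μ e a b := by
    simp only [BF, Finsupp.linearCombination_apply, Finsupp.sum, LinearMap.sum_apply,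
      LinearMap.smul_apply, smul_eq_mul, Finset.mul_sum]
    refine Finset.sum_congr rfl fun a _ => Finset.sum_congr rfl fun b _ => ?_
    ring
  have h3 : ∀ φ : List (Rt e) → ℝ, ∑ a ∈ F.support, φ a =
      ∑ j : Fin F.support.card, φ (F.support.equivFin.symm j) := by
    intro φ
    rw [← Finset.sum_coe_sort]
    exact (Equiv.sum_comp F.support.equivFin.symm (fun a : F.support => φ a)).symm
  rw [h2, h3]
  refine h.trans_eq (Finset.sum_congr rfl fun j _ => ?_)
  rw [h3]
  rfl

theorem BF_bound (μ : Measure (SD d)) [IsProbabilityMeasure μ] (hM : IsMAO μ) (hT : TransInv μ)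
    (e : V d) (he : ‖e‖ = 1) (F : List (Rt e) →₀ ℝ) :
    ∃ K : ℝ, ∀ s, 0 ≤ s → BF μ e F (ta e he s F) ≤ K := by
  classical
  have hk : ∀ a b : List (Rt e), ∃ K : ℝ, 0 ≤ K ∧ ∀ s, 0 ≤ s →
      |bf μ e a (b.map (tr e he s))| ≤ K := by
    intro a b
    obtain ⟨K, hK0, hK⟩ := ml_bound μ hM hT ((vl e a).map (rot (Re e))) (vl e b)
    refine ⟨K, hK0, fun s hs => ?_⟩
    unfold bf
    rw [vl_tr e he s hs]
    exact hK _
  choose K hK0 hK using hk
  refine ⟨∑ a ∈ F.support, ∑ b ∈ F.support, |F a| * |F b| * K a b, fun s hs => ?_⟩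
  have h2 : BF μ e F (ta e he s F) =
      ∑ a ∈ F.support, ∑ b ∈ F.support, F a * F b * bf μ e a (b.map (tr e he s)) := by
    have h3 : ta e he s F = ∑ b ∈ F.support, Finsupp.single (b.map (tr e he s)) (F b) := by
      conv_lhs => rw [← Finsupp.sum_single F]
      rw [Finsupp.sum, map_sum]
      exact Finset.sum_congr rfl fun b _ => ta_single e he s b (F b)
    have h4 : BF μ e F = ∑ a ∈ F.support, BF μ e (Finsupp.single a (F a)) := by
      conv_lhs => rw [← Finsupp.sum_single F]
      rw [Finsupp.sum, map_sum]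
    rw [h3, h4, LinearMap.sum_apply]
    refine Finset.sum_congr rfl fun a _ => ?_
    rw [map_sum]
    exact Finset.sum_congr rfl fun b _ => BF_single μ e a _ _ _
  rw [h2]
  refine Finset.sum_le_sum fun a _ => Finset.sum_le_sum fun b _ => ?_
  refine (le_abs_self _).trans ?_
  rw [abs_mul, abs_mul]
  exact mul_le_mul_of_nonneg_left (hK a b s hs) (by positivity)

/-- a list of functions supported on the right -/
theorem exists_vl (e : V d) (l : List (S d)) (h : ∀ f ∈ l, ∀ x, f x ≠ 0 → 0 < ⟪e, x⟫_ℝ) :
    ∃ F : List (Rt e), vl e F = l := by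
  refine ⟨l.attach.map fun f => ⟨f.1, h f.1 f.2⟩, ?_⟩
  rw [vl, List.map_map]
  exact List.attach_map_subtype_val l

theorem pf_RPD (hSGP : T_SGP) : T_RPD := by
  intro d μ _ hM hT hR e he hP A L t m h hA hL hh hmh ht
  obtain ⟨F, hF⟩ := exists_vl e (A.map (rot (Re e))) (by
    intro f hf x hx
    obtain ⟨g, hg, rfl⟩ := List.mem_map.1 hf
    have h5 : ⟪e, Re e x⟫_ℝ < 0 := hA g hg _ hx
    rw [inner_Re] at h5
    linarith)
  obtain ⟨G, hG⟩ := exists_vl e (L.map (Pool.Agent.H43.DPC.trans ((-t) • e))) (by
    intro f hf x hx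
    obtain ⟨g, hg, rfl⟩ := List.mem_map.1 hf
    have := hL g hg _ hx
    rw [inner_sub_right, inner_smul_right, real_inner_self_eq_norm_sq, he] at this
    linarith)
  have key := hSGP (List (Rt e) →₀ ℝ) (BF μ e) (ta e he) (BF_symm μ hR e) (BF_nonneg μ e hP)
    (by
      intro W
      have : ta e he 0 = LinearMap.id := by
        refine Finsupp.lhom_ext fun F a => ?_
        rw [ta_single, LinearMap.id_apply]
        congr 1
        conv_rhs => rw [← List.map_id F]
        refine List.map_congr_left fun f _ => Subtype.ext ?_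
        rw [tr_val e he 0 le_rfl, zero_smul, trans_zero]
        rfl
      rw [this, LinearMap.id_apply])
    (by
      intro s t' W hs ht'
      have : ta e he (s + t') = (ta e he s).comp (ta e he t') := by
        refine Finsupp.lhom_ext fun F a => ?_
        rw [LinearMap.comp_apply, ta_single, ta_single, ta_single, List.map_map]
        congr 1
        refine List.map_congr_left fun f _ => Subtype.ext ?_
        rw [tr_val e he _ (add_nonneg hs ht'), Function.comp_apply, tr_val e he s hs,
          tr_val e he t' ht', trans_trans, add_smul]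
      rw [this, LinearMap.comp_apply])
    (fun s F G hs => BF_tr μ hT e he s hs F G) (BF_bound μ hM hT e he) m t h hh hmh
    (Finsupp.single F 1) (Finsupp.single G 1)
  simp only [ta_single, BF_single, one_mul] at key
  have h1 : bf μ e F F = ml μ (A.map (rot (Re e)) ++ A) := by
    unfold bf
    rw [hF, List.map_map, ml_comm]
    congr 2
    conv_rhs => rw [← List.map_id A]
    exact List.map_congr_left fun f _ => rot_rot e f
  have h2 : bf μ e G G = ml μ ((L.map (Pool.Agent.H43.DPC.trans ((-t) • e))).map (rot (Re e)) ++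
      L.map (Pool.Agent.H43.DPC.trans ((-t) • e))) := by
    unfold bf
    rw [hG]
  rw [h1, h2] at key
  refine le_of_eq_of_le ?_ key
  congr 1
  refine Finset.sum_congr rfl fun i _ => ?_
  congr 1
  have hti : 0 ≤ t + i * h := by positivity
  unfold bf
  rw [vl_tr e he _ hti, hF, hG, List.map_map, List.map_map]
  congr 2
  · conv_lhs => rw [← List.map_id A]
    exact List.map_congr_left fun f _ => (rot_rot e f).symm
  · refine List.map_congr_left fun f _ => ?_
    change trans (((i : ℝ) * h) • e) f = trans ((t + i * h) • e) (trans ((-t) • e) f)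
    rw [trans_trans, ← add_smul, show t + (i : ℝ) * h + -t = (i : ℝ) * h by ring]

end

end Pool.Agent.H7.LD
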